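import Pool.Agent.Helper73.HM.St

/-! # HM module TS: satisfaction in `V_θ` for coded formulas is definable -/

namespace Pool.Agent.Helper12.HM

open Ordinal Cardinal ZFSet Order Pool.Agent.Helper73.HODC Pool.Agent.Helper73.HE
  Pool.Agent.Helper73.HM

/-! ### natural numbers as sets -/

/-- `n` is a natural number -/
def NN (n : ZFSet.{0}) : Prop := n = n.rank.toZFSet ∧ n.rank < ω

theorem nn_iff {n : ZFSet.{0}} : NN n ↔ ∃ m : ℕ, n = nz m := by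
  constructor
  · rintro ⟨h1, h2⟩
    obtain ⟨m, hm⟩ := Ordinal.lt_omega0.1 h2
    refine ⟨m, ?_⟩
    rw [h1, hm, nz]
  · rintro ⟨m, rfl⟩
    refine ⟨?_, ?_⟩
    · rw [nz, rank_toZFSet]
    · rw [nz, rank_toZFSet]
      exact Ordinal.natCast_lt_omega0 m

theorem nn_nz (m : ℕ) : NN (nz m) := nn_iff.2 ⟨m, rfl⟩

theorem nz_inj {m n : ℕ} (h : nz m = nz n) : m = n := by
  have := toZFSet_injective h
  exact_mod_cast this

theorem nz_succ (m : ℕ) : nz (m + 1) = insert (nz m) (nz m) := by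
  have : ((m + 1 : ℕ) : Ordinal.{0}) = (m : Ordinal.{0}) + 1 := by push_cast; rfl
  rw [nz, this, toZFSet_add_one]
  rfl

/-- `m = n + 1` -/
def Sc (n m : ZFSet.{0}) : Prop := ∀ u, u ∈ m ↔ (u ∈ n ∨ u = n)

theorem sc_iff {n : ℕ} {m : ZFSet.{0}} : Sc (nz n) m ↔ m = nz (n + 1) := by
  rw [nz_succ]
  constructor
  · intro h
    ext u
    rw [h u, mem_insert_iff]
    tauto
  · rintro rfl u
    rw [mem_insert_iff]
    tauto

/-! ### assignments -/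

/-- the set coding an assignment -/
noncomputable def asg (f : ℕ → ZFSet.{0}) : ZFSet.{0} :=
  ZFSet.range (fun n : ℕ => ZFSet.pair (nz n) (f n))

theorem mem_asg {f : ℕ → ZFSet.{0}} {n : ℕ} {x : ZFSet.{0}} :
    ZFSet.pair (nz n) x ∈ asg f ↔ x = f n := by
  rw [asg, mem_range]
  constructor
  · rintro ⟨m, hm⟩
    obtain ⟨h1, h2⟩ := pair_inj.1 hm
    rw [nz_inj h1] at h2
    exact h2.symm
  · rintro rfl
    exact ⟨n, rfl⟩

theorem asg_inj {f g : ℕ → ZFSet.{0}} (h : asg f = asg g) : f = g := by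
  funext n
  rw [← mem_asg (f := g), ← h, mem_asg]

/-- `s` codes an assignment in `V_θ` -/
def IsA (θ : Ordinal.{0}) (s : ZFSet.{0}) : Prop :=
  (∀ z, z ∈ s → ∃ n x, z = ZFSet.pair n x ∧ NN n ∧ x.rank < θ) ∧
    ∀ n, NN n → ∃ x, ZFSet.pair n x ∈ s ∧ ∀ y, ZFSet.pair n y ∈ s → y = x

theorem isA_asg {θ : Ordinal.{0}} {f : ℕ → ZFSet.{0}} (h : ∀ n, (f n).rank < θ) :
    IsA θ (asg f) := by
  constructor
  · intro z hz
    rw [asg, mem_range] at hz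
    obtain ⟨m, rfl⟩ := hz
    exact ⟨nz m, f m, rfl, nn_nz m, h m⟩
  · intro n hn
    obtain ⟨m, rfl⟩ := nn_iff.1 hn
    exact ⟨f m, mem_asg.2 rfl, fun y hy => mem_asg.1 hy⟩

theorem exists_asg {θ : Ordinal.{0}} {s : ZFSet.{0}} (h : IsA θ s) :
    ∃ f : ℕ → ZFSet.{0}, (∀ n, (f n).rank < θ) ∧ s = asg f := by
  obtain ⟨h1, h2⟩ := h
  choose f hf hf' using fun n : ℕ => h2 (nz n) (nn_nz n)
  refine ⟨f, ?_, ?_⟩
  · intro n
    obtain ⟨m, x, e, -, hx⟩ := h1 _ (hf n)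
    rw [(pair_inj.1 e).2]
    exact hx
  · ext z
    constructor
    · intro hz
      obtain ⟨m, x, rfl, hm, -⟩ := h1 z hz
      obtain ⟨k, rfl⟩ := nn_iff.1 hm
      exact mem_asg.2 (hf' k x hz)
    · intro hz
      rw [asg, mem_range] at hz
      obtain ⟨m, rfl⟩ := hz
      exact hf m

/-- `t` is the assignment `x, s 0, s 1, ...` -/
def IsC (x s t : ZFSet.{0}) : Prop :=
  (∃ z, z = nz 0 ∧ ZFSet.pair z x ∈ t) ∧
    ∀ n m, NN n → Sc n m → ∀ y, ZFSet.pair n y ∈ s ↔ ZFSet.pair m y ∈ t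

theorem isC_iff {x : ZFSet.{0}} {f g : ℕ → ZFSet.{0}} :
    IsC x (asg f) (asg g) ↔ g = cons x f := by
  constructor
  · rintro ⟨⟨z, rfl, hz⟩, h2⟩
    funext n
    cases n with
    | zero => exact (mem_asg.1 hz).symm
    | succ n =>
      have := (h2 (nz n) (nz (n + 1)) (nn_nz n) (sc_iff.2 rfl) (f n)).1 (mem_asg.2 rfl)
      exact (mem_asg.1 this).symm
  · rintro rfl
    refine ⟨⟨nz 0, rfl, mem_asg.2 rfl⟩, ?_⟩
    intro n m hn hm y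
    obtain ⟨k, rfl⟩ := nn_iff.1 hn
    rw [sc_iff] at hm
    subst hm
    rw [mem_asg, mem_asg]
    exact Iff.rfl

/-! ### truth definitions -/

/-- `c` is a code -/
def Cd (c : ZFSet.{0}) : Prop := ∃ φ : Fm, code φ = c

/-- `W` is a truth definition for `V_θ` -/
def Tarski (θ : Ordinal.{0}) (W : ZFSet.{0}) : Prop :=
  ∀ s, IsA θ s →
    (∀ i j d, d = ZFSet.pair (nz 0) (ZFSet.pair i j) → NN i → NN j →
      (ZFSet.pair d s ∈ W ↔ ∃ x y, ZFSet.pair i x ∈ s ∧ ZFSet.pair j y ∈ s ∧ x ∈ y)) ∧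
    (∀ i j d, d = ZFSet.pair (nz 1) (ZFSet.pair i j) → NN i → NN j →
      (ZFSet.pair d s ∈ W ↔ ∃ x y, ZFSet.pair i x ∈ s ∧ ZFSet.pair j y ∈ s ∧ x = y)) ∧
    (∀ c d, d = ZFSet.pair (nz 2) c → Cd c → (ZFSet.pair d s ∈ W ↔ ¬ ZFSet.pair c s ∈ W)) ∧
    (∀ c c' d, d = ZFSet.pair (nz 3) (ZFSet.pair c c') → Cd c → Cd c' →
      (ZFSet.pair d s ∈ W ↔ ZFSet.pair c s ∈ W ∧ ZFSet.pair c' s ∈ W)) ∧
    ∀ c d, d = ZFSet.pair (nz 4) c → Cd c →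
      (ZFSet.pair d s ∈ W ↔
        ∀ x t, x.rank < θ → IsA θ t → IsC x s t → ZFSet.pair c t ∈ W)

theorem Tarski.sat {θ : Ordinal.{0}} {W : ZFSet.{0}} (h : Tarski θ W) (φ : Fm) :
    ∀ f : ℕ → ZFSet.{0}, (∀ n, (f n).rank < θ) →
      (ZFSet.pair (code φ) (asg f) ∈ W ↔ Sat {z | z ∈ V_ θ} φ f) := by
  induction φ with
  | mem i j =>
    intro f hf
    rw [code, (h _ (isA_asg hf)).1 (nz i) (nz j) _ rfl (nn_nz i) (nn_nz j)]
    constructor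
    · rintro ⟨x, y, hx, hy, hxy⟩
      rw [mem_asg] at hx hy
      subst hx hy
      exact hxy
    · intro hxy
      exact ⟨f i, f j, mem_asg.2 rfl, mem_asg.2 rfl, hxy⟩
  | eq i j =>
    intro f hf
    rw [code, (h _ (isA_asg hf)).2.1 (nz i) (nz j) _ rfl (nn_nz i) (nn_nz j)]
    constructor
    · rintro ⟨x, y, hx, hy, hxy⟩
      rw [mem_asg] at hx hy
      subst hx hy
      exact hxy
    · intro hxy
      exact ⟨f i, f j, mem_asg.2 rfl, mem_asg.2 rfl, hxy⟩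
  | neg φ ih =>
    intro f hf
    rw [code, (h _ (isA_asg hf)).2.2.1 (code φ) _ rfl ⟨φ, rfl⟩]
    exact not_congr (ih f hf)
  | and φ ψ ih1 ih2 =>
    intro f hf
    rw [code, (h _ (isA_asg hf)).2.2.2.1 (code φ) (code ψ) _ rfl ⟨φ, rfl⟩ ⟨ψ, rfl⟩]
    exact and_congr (ih1 f hf) (ih2 f hf)
  | all φ ih =>
    intro f hf
    rw [code, (h _ (isA_asg hf)).2.2.2.2 (code φ) _ rfl ⟨φ, rfl⟩]
    have hc : ∀ x : ZFSet.{0}, x.rank < θ → ∀ n, (cons x f n).rank < θ := by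
      intro x hx n
      cases n with
      | zero => exact hx
      | succ n => exact hf n
    constructor
    · intro H x hx
      have hx' : x.rank < θ := mem_vonNeumann.1 hx
      exact (ih _ (hc x hx')).1 (H x _ hx' (isA_asg (hc x hx')) (isC_iff.2 rfl))
    · intro H x t hx ht htc
      obtain ⟨g, hg, rfl⟩ := exists_asg ht
      rw [isC_iff] at htc
      subst htc
      exact (ih _ hg).2 (H x (mem_vonNeumann.2 hx))

/-- the truth definition -/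
noncomputable def truth (θ : Ordinal.{0}) : ZFSet.{0} :=
  ZFSet.range (fun p : {p : Fm × (ℕ → {x : ZFSet.{0} // x ∈ V_ θ}) //
    Sat {z | z ∈ V_ θ} p.1 (fun n => (p.2 n).1)} =>
      ZFSet.pair (code p.1.1) (asg (fun n => (p.1.2 n).1)))

theorem mem_truth (hinj : ∀ φ ψ : Fm, code φ = code ψ → φ = ψ) {θ : Ordinal.{0}} {φ : Fm}
    {f : ℕ → ZFSet.{0}} (hf : ∀ n, (f n).rank < θ) :
    ZFSet.pair (code φ) (asg f) ∈ truth θ ↔ Sat {z | z ∈ V_ θ} φ f := by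
  rw [truth, mem_range]
  constructor
  · rintro ⟨⟨⟨ψ, g⟩, hp⟩, e⟩
    obtain ⟨h1, h2⟩ := pair_inj.1 e
    have h3 := hinj _ _ h1
    have h4 := asg_inj h2
    subst h3
    subst h4
    exact hp
  · intro h
    exact ⟨⟨⟨φ, fun n => ⟨f n, mem_vonNeumann.2 (hf n)⟩⟩, h⟩, rfl⟩

theorem tarski_truth (hinj : ∀ φ ψ : Fm, code φ = code ψ → φ = ψ) (θ : Ordinal.{0}) :
    Tarski θ (truth θ) := by
  intro s hs
  obtain ⟨f, hf, rfl⟩ := exists_asg hs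
  refine ⟨?_, ?_, ?_, ?_, ?_⟩
  · rintro i j d rfl hi hj
    obtain ⟨i, rfl⟩ := nn_iff.1 hi
    obtain ⟨j, rfl⟩ := nn_iff.1 hj
    have := mem_truth hinj (φ := Fm.mem i j) hf
    rw [code] at this
    rw [this]
    constructor
    · intro h
      exact ⟨f i, f j, mem_asg.2 rfl, mem_asg.2 rfl, h⟩
    · rintro ⟨x, y, hx, hy, hxy⟩
      rw [mem_asg] at hx hy
      subst hx hy
      exact hxy
  · rintro i j d rfl hi hj
    obtain ⟨i, rfl⟩ := nn_iff.1 hi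
    obtain ⟨j, rfl⟩ := nn_iff.1 hj
    have := mem_truth hinj (φ := Fm.eq i j) hf
    rw [code] at this
    rw [this]
    constructor
    · intro h
      exact ⟨f i, f j, mem_asg.2 rfl, mem_asg.2 rfl, h⟩
    · rintro ⟨x, y, hx, hy, hxy⟩
      rw [mem_asg] at hx hy
      subst hx hy
      exact hxy
  · rintro c d rfl ⟨φ, rfl⟩
    have := mem_truth hinj (φ := Fm.neg φ) hf
    rw [code] at this
    rw [this, mem_truth hinj hf]
    exact Iff.rfl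
  · rintro c c' d rfl ⟨φ, rfl⟩ ⟨ψ, rfl⟩
    have := mem_truth hinj (φ := Fm.and φ ψ) hf
    rw [code] at this
    rw [this, mem_truth hinj hf, mem_truth hinj hf]
    exact Iff.rfl
  · rintro c d rfl ⟨φ, rfl⟩
    have := mem_truth hinj (φ := Fm.all φ) hf
    rw [code] at this
    rw [this]
    have hc : ∀ x : ZFSet.{0}, x.rank < θ → ∀ n, (cons x f n).rank < θ := by
      intro x hx n
      cases n with
      | zero => exact hx
      | succ n => exact hf n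
    constructor
    · intro H x t hx ht htc
      obtain ⟨g, hg, rfl⟩ := exists_asg ht
      rw [isC_iff] at htc
      subst htc
      exact (mem_truth hinj hg).2 (H x (mem_vonNeumann.2 hx))
    · intro H x hx
      have hx' : x.rank < θ := mem_vonNeumann.1 hx
      exact (mem_truth hinj (hc x hx')).1
        (H x _ hx' (isA_asg (hc x hx')) (isC_iff.2 rfl))

/-! ### definability -/

theorem dfn_nn (i : ℕ) : Dfn (fun v => NN (v i)) := (dfn_isOrd i).and (dfn_lt_omega i)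

theorem dfn_sc (i j : ℕ) : Dfn (fun v => Sc (v i) (v j)) :=
  Dfn.all (Q := fun u v => (u ∈ v j ↔ (u ∈ v i ∨ u = v i)))
    ((dfn_mem 0 (j + 1)).iff ((dfn_mem 0 (i + 1)).or (dfn_eq 0 (i + 1))))

theorem dfn_isA (i j : ℕ) : Dfn (fun v => IsA (v i).rank (v j)) := by
  refine Dfn.and ?_ ?_
  · refine Dfn.all (Q := fun z v => z ∈ v j → ∃ n x, z = ZFSet.pair n x ∧ NN n ∧
      x.rank < (v i).rank) ?_
    refine (dfn_mem 0 (j + 1)).imp ?_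
    refine Dfn.ex (Q := fun n v => ∃ x, v 0 = ZFSet.pair n x ∧ NN n ∧
      x.rank < (v (i + 1)).rank) ?_
    refine Dfn.ex (Q := fun x v => v 1 = ZFSet.pair (v 0) x ∧ NN (v 0) ∧
      x.rank < (v (i + 2)).rank) ?_
    exact (dfn_pair 2 1 0).and ((dfn_nn 1).and (dfn_rank_lt 0 (i + 3)))
  · refine Dfn.all (Q := fun n v => NN n → ∃ x, ZFSet.pair n x ∈ v j ∧
      ∀ y, ZFSet.pair n y ∈ v j → y = x) ?_
    refine (dfn_nn 0).imp ?_
    refine Dfn.ex (Q := fun x v => ZFSet.pair (v 0) x ∈ v (j + 1) ∧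
      ∀ y, ZFSet.pair (v 0) y ∈ v (j + 1) → y = x) ?_
    refine (dfn_pair_mem 1 0 (j + 2)).and ?_
    refine Dfn.all (Q := fun y v => ZFSet.pair (v 1) y ∈ v (j + 2) → y = v 0) ?_
    exact (dfn_pair_mem 2 0 (j + 3)).imp (dfn_eq 0 1)

theorem dfn_isC (hn : ∀ n i : ℕ, Dfn (fun v => v i = nz n)) (i j k : ℕ) :
    Dfn (fun v => IsC (v i) (v j) (v k)) := by
  refine Dfn.and ?_ ?_
  · refine Dfn.ex (Q := fun z v => z = nz 0 ∧ ZFSet.pair z (v i) ∈ v k) ?_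
    exact (hn 0 0).and (dfn_pair_mem 0 (i + 1) (k + 1))
  · refine Dfn.all (Q := fun n v => ∀ m, NN n → Sc n m → ∀ y, ZFSet.pair n y ∈ v j ↔
      ZFSet.pair m y ∈ v k) ?_
    refine Dfn.all (Q := fun m v => NN (v 0) → Sc (v 0) m → ∀ y,
      ZFSet.pair (v 0) y ∈ v (j + 1) ↔ ZFSet.pair m y ∈ v (k + 1)) ?_
    refine (dfn_nn 1).imp ((dfn_sc 1 0).imp ?_)
    refine Dfn.all (Q := fun y v => (ZFSet.pair (v 1) y ∈ v (j + 2) ↔
      ZFSet.pair (v 0) y ∈ v (k + 2))) ?_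
    exact (dfn_pair_mem 2 0 (j + 3)).iff (dfn_pair_mem 1 0 (k + 3))

theorem dfn_np (hn : ∀ n i : ℕ, Dfn (fun v => v i = nz n)) (m i j : ℕ) :
    Dfn (fun v => v i = ZFSet.pair (nz m) (v j)) := by
  refine (Dfn.ex (Q := fun z v => z = nz m ∧ v i = ZFSet.pair z (v j))
    ((hn m 0).and (dfn_pair (i + 1) 0 (j + 1)))).congr fun v => ?_
  simp

theorem dfn_np2 (hn : ∀ n i : ℕ, Dfn (fun v => v i = nz n)) (m i j k : ℕ) :
    Dfn (fun v => v i = ZFSet.pair (nz m) (ZFSet.pair (v j) (v k))) := by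
  refine (Dfn.ex (Q := fun z v => z = ZFSet.pair (v j) (v k) ∧ v i = ZFSet.pair (nz m) z)
    ((dfn_pair 0 (j + 1) (k + 1)).and (dfn_np hn m (i + 1) 0))).congr fun v => ?_
  simp

theorem dfn_tarski (hn : ∀ n i : ℕ, Dfn (fun v => v i = nz n))
    (hc : ∀ i : ℕ, Dfn (fun v => ∃ φ, code φ = v i)) (i j : ℕ) :
    Dfn (fun v => Tarski (v i).rank (v j)) := by
  have hcd : ∀ i : ℕ, Dfn (fun v => Cd (v i)) := hc
  refine Dfn.all (Q := fun s v => IsA (v i).rank s →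
    (∀ a b d, d = ZFSet.pair (nz 0) (ZFSet.pair a b) → NN a → NN b →
      (ZFSet.pair d s ∈ v j ↔ ∃ x y, ZFSet.pair a x ∈ s ∧ ZFSet.pair b y ∈ s ∧ x ∈ y)) ∧
    (∀ a b d, d = ZFSet.pair (nz 1) (ZFSet.pair a b) → NN a → NN b →
      (ZFSet.pair d s ∈ v j ↔ ∃ x y, ZFSet.pair a x ∈ s ∧ ZFSet.pair b y ∈ s ∧ x = y)) ∧
    (∀ c d, d = ZFSet.pair (nz 2) c → Cd c →
      (ZFSet.pair d s ∈ v j ↔ ¬ ZFSet.pair c s ∈ v j)) ∧
    (∀ c c' d, d = ZFSet.pair (nz 3) (ZFSet.pair c c') → Cd c → Cd c' →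
      (ZFSet.pair d s ∈ v j ↔ ZFSet.pair c s ∈ v j ∧ ZFSet.pair c' s ∈ v j)) ∧
    ∀ c d, d = ZFSet.pair (nz 4) c → Cd c →
      (ZFSet.pair d s ∈ v j ↔
        ∀ x t, x.rank < (v i).rank → IsA (v i).rank t → IsC x s t →
          ZFSet.pair c t ∈ v j)) ?_
  refine (dfn_isA (i + 1) 0).imp (Dfn.and ?_ (Dfn.and ?_ (Dfn.and ?_ (Dfn.and ?_ ?_))))
  · refine Dfn.all (Q := fun a v => ∀ b d, d = ZFSet.pair (nz 0) (ZFSet.pair a b) →
      NN a → NN b → (ZFSet.pair d (v 0) ∈ v (j + 1) ↔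
        ∃ x y, ZFSet.pair a x ∈ v 0 ∧ ZFSet.pair b y ∈ v 0 ∧ x ∈ y)) ?_
    refine Dfn.all (Q := fun b v => ∀ d, d = ZFSet.pair (nz 0) (ZFSet.pair (v 0) b) →
      NN (v 0) → NN b → (ZFSet.pair d (v 1) ∈ v (j + 2) ↔
        ∃ x y, ZFSet.pair (v 0) x ∈ v 1 ∧ ZFSet.pair b y ∈ v 1 ∧ x ∈ y)) ?_
    refine Dfn.all (Q := fun d v => d = ZFSet.pair (nz 0) (ZFSet.pair (v 1) (v 0)) →
      NN (v 1) → NN (v 0) → (ZFSet.pair d (v 2) ∈ v (j + 3) ↔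
        ∃ x y, ZFSet.pair (v 1) x ∈ v 2 ∧ ZFSet.pair (v 0) y ∈ v 2 ∧ x ∈ y)) ?_
    refine (dfn_np2 hn 0 0 2 1).imp ((dfn_nn 2).imp ((dfn_nn 1).imp ?_))
    refine (dfn_pair_mem 0 3 (j + 4)).iff ?_
    refine Dfn.ex (Q := fun x v => ∃ y, ZFSet.pair (v 2) x ∈ v 3 ∧
      ZFSet.pair (v 1) y ∈ v 3 ∧ x ∈ y) ?_
    refine Dfn.ex (Q := fun y v => ZFSet.pair (v 3) (v 0) ∈ v 4 ∧
      ZFSet.pair (v 2) y ∈ v 4 ∧ v 0 ∈ y) ?_
    exact (dfn_pair_mem 4 1 5).and ((dfn_pair_mem 3 0 5).and (dfn_mem 1 0))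
  · refine Dfn.all (Q := fun a v => ∀ b d, d = ZFSet.pair (nz 1) (ZFSet.pair a b) →
      NN a → NN b → (ZFSet.pair d (v 0) ∈ v (j + 1) ↔
        ∃ x y, ZFSet.pair a x ∈ v 0 ∧ ZFSet.pair b y ∈ v 0 ∧ x = y)) ?_
    refine Dfn.all (Q := fun b v => ∀ d, d = ZFSet.pair (nz 1) (ZFSet.pair (v 0) b) →
      NN (v 0) → NN b → (ZFSet.pair d (v 1) ∈ v (j + 2) ↔
        ∃ x y, ZFSet.pair (v 0) x ∈ v 1 ∧ ZFSet.pair b y ∈ v 1 ∧ x = y)) ?_
    refine Dfn.all (Q := fun d v => d = ZFSet.pair (nz 1) (ZFSet.pair (v 1) (v 0)) →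
      NN (v 1) → NN (v 0) → (ZFSet.pair d (v 2) ∈ v (j + 3) ↔
        ∃ x y, ZFSet.pair (v 1) x ∈ v 2 ∧ ZFSet.pair (v 0) y ∈ v 2 ∧ x = y)) ?_
    refine (dfn_np2 hn 1 0 2 1).imp ((dfn_nn 2).imp ((dfn_nn 1).imp ?_))
    refine (dfn_pair_mem 0 3 (j + 4)).iff ?_
    refine Dfn.ex (Q := fun x v => ∃ y, ZFSet.pair (v 2) x ∈ v 3 ∧
      ZFSet.pair (v 1) y ∈ v 3 ∧ x = y) ?_
    refine Dfn.ex (Q := fun y v => ZFSet.pair (v 3) (v 0) ∈ v 4 ∧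
      ZFSet.pair (v 2) y ∈ v 4 ∧ v 0 = y) ?_
    exact (dfn_pair_mem 4 1 5).and ((dfn_pair_mem 3 0 5).and (dfn_eq 1 0))
  · refine Dfn.all (Q := fun c v => ∀ d, d = ZFSet.pair (nz 2) c → Cd c →
      (ZFSet.pair d (v 0) ∈ v (j + 1) ↔ ¬ ZFSet.pair c (v 0) ∈ v (j + 1))) ?_
    refine Dfn.all (Q := fun d v => d = ZFSet.pair (nz 2) (v 0) → Cd (v 0) →
      (ZFSet.pair d (v 1) ∈ v (j + 2) ↔ ¬ ZFSet.pair (v 0) (v 1) ∈ v (j + 2))) ?_
    exact (dfn_np hn 2 0 1).imp ((hcd 1).imp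
      ((dfn_pair_mem 0 2 (j + 3)).iff (dfn_pair_mem 1 2 (j + 3)).not))
  · refine Dfn.all (Q := fun c v => ∀ c' d, d = ZFSet.pair (nz 3) (ZFSet.pair c c') →
      Cd c → Cd c' → (ZFSet.pair d (v 0) ∈ v (j + 1) ↔
        ZFSet.pair c (v 0) ∈ v (j + 1) ∧ ZFSet.pair c' (v 0) ∈ v (j + 1))) ?_
    refine Dfn.all (Q := fun c' v => ∀ d, d = ZFSet.pair (nz 3) (ZFSet.pair (v 0) c') →
      Cd (v 0) → Cd c' → (ZFSet.pair d (v 1) ∈ v (j + 2) ↔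
        ZFSet.pair (v 0) (v 1) ∈ v (j + 2) ∧ ZFSet.pair c' (v 1) ∈ v (j + 2))) ?_
    refine Dfn.all (Q := fun d v => d = ZFSet.pair (nz 3) (ZFSet.pair (v 1) (v 0)) →
      Cd (v 1) → Cd (v 0) → (ZFSet.pair d (v 2) ∈ v (j + 3) ↔
        ZFSet.pair (v 1) (v 2) ∈ v (j + 3) ∧ ZFSet.pair (v 0) (v 2) ∈ v (j + 3))) ?_
    exact (dfn_np2 hn 3 0 2 1).imp ((hcd 2).imp ((hcd 1).imp
      ((dfn_pair_mem 0 3 (j + 4)).iff
        ((dfn_pair_mem 2 3 (j + 4)).and (dfn_pair_mem 1 3 (j + 4))))))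
  · refine Dfn.all (Q := fun c v => ∀ d, d = ZFSet.pair (nz 4) c → Cd c →
      (ZFSet.pair d (v 0) ∈ v (j + 1) ↔ ∀ x t, x.rank < (v (i + 1)).rank →
        IsA (v (i + 1)).rank t → IsC x (v 0) t → ZFSet.pair c t ∈ v (j + 1))) ?_
    refine Dfn.all (Q := fun d v => d = ZFSet.pair (nz 4) (v 0) → Cd (v 0) →
      (ZFSet.pair d (v 1) ∈ v (j + 2) ↔ ∀ x t, x.rank < (v (i + 2)).rank →
        IsA (v (i + 2)).rank t → IsC x (v 1) t → ZFSet.pair (v 0) t ∈ v (j + 2))) ?_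
    refine (dfn_np hn 4 0 1).imp ((hcd 1).imp ((dfn_pair_mem 0 2 (j + 3)).iff ?_))
    refine Dfn.all (Q := fun x v => ∀ t, x.rank < (v (i + 3)).rank →
        IsA (v (i + 3)).rank t → IsC x (v 2) t → ZFSet.pair (v 1) t ∈ v (j + 3)) ?_
    refine Dfn.all (Q := fun t v => (v 0).rank < (v (i + 4)).rank →
        IsA (v (i + 4)).rank t → IsC (v 0) (v 3) t → ZFSet.pair (v 2) t ∈ v (j + 4)) ?_
    exact (dfn_rank_lt 1 (i + 5)).imp ((dfn_isA (i + 5) 0).imp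
      ((dfn_isC hn 1 4 0).imp (dfn_pair_mem 3 0 (j + 5))))

/-- TS -/
theorem ts (h : StTC) : StTS := by
  obtain ⟨hinj, -, hn, hc⟩ := h
  intro i j k
  have h1 : Dfn (fun v => (v k).rank < (v j).rank ∧ (∃ φ, code φ = v i) ∧
      ∃ W s, Tarski (v j).rank W ∧ IsA (v j).rank s ∧
        (∀ n, NN n → ZFSet.pair n (v k) ∈ s) ∧ ZFSet.pair (v i) s ∈ W) := by
    refine (dfn_rank_lt k j).and ((hc i).and ?_)
    refine Dfn.ex (Q := fun W v => ∃ s, Tarski (v j).rank W ∧ IsA (v j).rank s ∧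
        (∀ n, NN n → ZFSet.pair n (v k) ∈ s) ∧ ZFSet.pair (v i) s ∈ W) ?_
    refine Dfn.ex (Q := fun s v => Tarski (v (j + 1)).rank (v 0) ∧ IsA (v (j + 1)).rank s ∧
        (∀ n, NN n → ZFSet.pair n (v (k + 1)) ∈ s) ∧ ZFSet.pair (v (i + 1)) s ∈ v 0) ?_
    refine (dfn_tarski hn hc (j + 2) 1).and ((dfn_isA (j + 2) 0).and (Dfn.and ?_ ?_))
    · refine Dfn.all (Q := fun n v => NN n → ZFSet.pair n (v (k + 2)) ∈ v 0) ?_
      exact (dfn_nn 0).imp (dfn_pair_mem 0 (k + 3) 1)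
    · exact dfn_pair_mem (i + 2) 0 1
  refine h1.congr fun v => ?_
  constructor
  · rintro ⟨h2, ⟨φ, hφ⟩, W, s, hW, hs, hs', hm⟩
    refine ⟨h2, φ, hφ, ?_⟩
    obtain ⟨f, hf, rfl⟩ := exists_asg hs
    have hf' : f = fun _ => v k := by
      funext n
      exact (mem_asg.1 (hs' (nz n) (nn_nz n))).symm
    subst hf'
    rw [← hφ] at hm
    exact (hW.sat φ _ hf).1 hm
  · rintro ⟨h2, φ, hφ, hm⟩
    refine ⟨h2, ⟨φ, hφ⟩, truth (v j).rank, asg (fun _ => v k), tarski_truth hinj _,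
      isA_asg (fun _ => h2), ?_, ?_⟩
    · intro n hn
      obtain ⟨m, rfl⟩ := nn_iff.1 hn
      exact mem_asg.2 rfl
    · rw [← hφ]
      exact (mem_truth hinj (fun _ => h2)).2 hm

end Pool.Agent.Helper12.HM
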